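import Pool.Agent.Run7.h445.QF.Main

/-!
# The number of possible Chern classes in codimension four, without bound for the degree

Let `X ⊂ ℙ^N` be a smooth subvariety of codimension four, `N ≥ 16`. By Barth and Larsen the groups
`H^(2 i)(X, ℤ)`, `i ≤ 4`, are generated by the powers of the hyperplane class `h`, so the Chern
polynomial `P = T⁴ - c₁ T³ + c₂ T² - c₃ T + c₄` of the normal bundle (`c_i(N_X) = c_i h^i`) has
integral coefficients, `ω_X = O_X(k)` for `k = c₁ - N - 1`, and `c₄` is the degree of `X`. The
following is known: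

* `N_X(-1)` is globally generated, so its Schur polynomials `c_i` and `c_1 c_i - c_(i+1)` are not
  negative; the Chern classes of `N_X(-1)` are the signed coefficients of `P(T + 1)`;
* `χ(O_X(t))` is an integer for all `t`; by the theorem of Riemann-Roch it is the Koszul sum
  `Σ_S (-1)^|S| χ(ℙ^N, O(t - Σ_(i ∈ S) β_i))`, `β_i` the roots of `P` (the Chern roots);
* `χ(N_X^*(t))` is an integer for all `t`; it is `Σ_i χ(O_X(t - β_i))`.

For a complete intersection of hypersurfaces of degrees `a_1, ..., a_4`, `P = Π (T - a_i)`.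

We show: for all real `A`, `ε > 0`, all sufficiently large `N` and all `1 ≤ H ≤ N ^ A` at most
`H⁷ N ^ ε` polynomials `P` with `c₁ ≤ H` satisfy these conditions. So at most `H⁷ N ^ ε` quadruples of
a canonical class and three further Chern classes (and at most so many Hilbert polynomials, and at
most so many degrees) are possible for smooth subvarieties of codimension four of `ℙ^N` with
`c₁ ≤ H`. There is no bound for the degree. Without the integrality conditions about `H¹⁰` polynomials
are possible; those of complete intersections are about `H⁴ / 576`. So half of the saving `H⁶` which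
the conjecture predicts is proved.

The corresponding result in codimension three (`CodimensionThreeCount`) has the exponent `3`, which is
best possible there. The starting results `CodimensionThreeFour` and
`MP_9a3fdb_ag.SmallCanonicalClass` need bounds for the degree or the canonical class by explicit
powers of `N`.

Proof. (1) The two integrality conditions imply that `P`, and so its cubic resolvent, splits modulo
every prime `4 < p ≤ N - 7` which does not divide the degree (`Pool.Agent.N17.HC.FIN.loc`,
`QUA.spl3_of_spl4`), so the discriminant `D` of `P` is a square modulo these `p`. (2) By the Schur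
positivity `c_i ≤ c₁ ^ i`, and by Burgess' bound, the method of Vinogradov and a large sieve
(helper852, `Pool.Agent.R852`) there are at most `N ^ ε` possible squarefree kernels `f` of `D`,
and none of these is `-3`. (3) Let `I` and `J` be the two invariants of `P`, of the sizes `H⁴` and
`H⁶`. Then

  `4 I³ - J² = 27 D = 27 f s²`,

so for given `I` and `f` there are at most `N ^ ε` possible `J` (points of bounded height on a conic,
`Run7/h445/QC`; for `I = 0` we have `J = 0`). (4) For given `c₁`, `c₂`, `I`, `J` there are at most two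
`P`: `I` gives `c₄` in terms of `c₃`, and then `J` is a polynomial of degree two in `c₃`. There are at
most `C H · H² · H⁴` triples `c₁`, `c₂`, `I`.
-/

set_option autoImplicit false

namespace Pool.Agent.Results.MP_014caa_ag.CodimensionFourCount

open Polynomial

/-- The Chern roots: the complex roots of `P` with multiplicities. -/
noncomputable def chernRoots (P : ℤ[X]) : Multiset ℂ := (P.map (Int.castRingHom ℂ)).roots

/-- The Chern numbers of `N_X(-1)`: `(-1)^i` times the coefficient of `T^(4 - i)` in `P(T + 1)`,
`i ≤ 4`. -/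
noncomputable def chernTwist (P : ℤ[X]) (i : ℕ) : ℤ := (-1) ^ i * (P.comp (X + 1)).coeff (4 - i)

/-- `χ(ℙ^N, O(x)) = (x + 1) ... (x + N) / N!`. -/
noncomputable def chiPN (N : ℕ) (x : ℂ) : ℂ :=
  (∏ j ∈ Finset.range N, (x + j + 1)) / N.factorial

/-- `χ(O_X(x)) = Σ_S (-1)^|S| χ(ℙ^N, O(x - β_S))`, `S` running over the submultisets of the multiset
of the Chern roots of the normal bundle, `β_S` the sum of the elements of `S`. -/
noncomputable def chiX (N : ℕ) (P : ℤ[X]) (x : ℂ) : ℂ :=
  ((chernRoots P).powerset.map fun S => (-1) ^ Multiset.card S * chiPN N (x - S.sum)).sum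

/-- `χ(N_X^*(x)) = Σ_i χ(O_X(x - β_i))`. -/
noncomputable def chiConormal (N : ℕ) (P : ℤ[X]) (x : ℂ) : ℂ :=
  ((chernRoots P).map fun b => chiX N P (x - b)).sum

/-- The conditions satisfied by the Chern polynomial of the normal bundle of a smooth subvariety of
codimension four of `ℙ^N`, `N ≥ 16`. -/
structure Possible (N : ℕ) (P : ℤ[X]) : Prop where
  monic : P.Monic
  degree : P.natDegree = 4
  /-- the Chern classes of `N_X(-1)` are not negative -/
  chern : ∀ i ≤ 4, 0 ≤ chernTwist P i
  /-- the Schur polynomials `c_1 c_i - c_(i+1)` of `N_X(-1)` are not negative -/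
  schur : ∀ i < 4, chernTwist P (i + 1) ≤ chernTwist P 1 * chernTwist P i
  /-- the Euler characteristics of `O_X(t)` are integers -/
  euler : ∀ t : ℤ, ∃ z : ℤ, chiX N P t = z
  /-- the Euler characteristics of `N_X^*(t)` are integers -/
  euler_conormal : ∀ t : ℤ, ∃ z : ℤ, chiConormal N P t = z

open Pool.Agent.N17.HC in
theorem bin_eq (N : ℕ) (x : ℂ) : bin N (N + x) = chiPN N x := by
  unfold bin chiPN
  congr 1
  rw [← Finset.prod_range_reflect]
  refine Finset.prod_congr rfl fun j hj => ?_
  have hj' := Finset.mem_range.1 hj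
  rw [show N - 1 - j = N - (j + 1) by omega, Nat.cast_sub (by omega)]
  push_cast
  ring

open Pool.Agent.N17.HC in
theorem kos_eq (N : ℕ) (P : ℤ[X]) (x : ℂ) : kos N (rootsOf P) (N + x) = chiX N P x := by
  unfold kos chiX
  change Multiset.sum (Multiset.map _ (Multiset.powerset (chernRoots P))) = _
  congr 1
  refine Multiset.map_congr rfl fun S _ => ?_
  rw [add_sub_assoc, bin_eq]

/-- **Codimension four: at most `H⁷ N ^ ε` polynomials with `c₁ ≤ H` are possible**, for all
`1 ≤ H ≤ N ^ A`, `N` large. -/
theorem result (A ε : ℝ) (hε : 0 < ε) : ∃ N₀ : ℕ, ∀ N : ℕ, N₀ ≤ N →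
    ∀ H : ℝ, 1 ≤ H → H ≤ (N : ℝ) ^ A →
    ∀ S : Finset ℤ[X], (∀ P ∈ S, Possible N P ∧ ((-P.coeff 3 : ℤ) : ℝ) ≤ H) →
      (S.card : ℝ) ≤ H ^ 7 * (N : ℝ) ^ ε := by
  obtain ⟨N₀, h⟩ := Pool.Agent.Run7.h445.QF.final4 A ε hε
  refine ⟨N₀, fun N hN H hH1 hHA S hS => h N hN H hH1 hHA S fun P hP => ?_⟩
  obtain ⟨⟨hm, hd, hpos, hsch, h1, h2⟩, hH⟩ := hS P hP
  refine ⟨⟨hm, hd, hpos, hsch, ?_, ?_⟩, hH⟩
  · intro t
    obtain ⟨z, hz⟩ := h1 t
    exact ⟨z, by rw [kos_eq]; exact hz⟩
  · intro t
    obtain ⟨z, hz⟩ := h2 t
    refine ⟨z, ?_⟩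
    rw [← hz]
    unfold chiConormal
    change Multiset.sum (Multiset.map _ (chernRoots P)) = _
    congr 1
    refine Multiset.map_congr rfl fun b _ => ?_
    rw [add_sub_assoc, kos_eq]

end Pool.Agent.Results.MP_014caa_ag.CodimensionFourCount
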