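import Pool.Agent.Run7.h445.QC.Main

/-!
# The number of possible Chern classes in codimension three, without bound for the degree

Let `X ⊂ ℙ^N` be a smooth subvariety of codimension three, `N ≥ 12`. By Barth and Larsen the groups
`H^(2 i)(X, ℤ)`, `i ≤ 3`, are generated by the powers of the hyperplane class `h`, so the Chern
polynomial `P = T³ - c₁ T² + c₂ T - c₃` of the normal bundle (`c_i(N_X) = c_i h^i`) has integral
coefficients, `ω_X = O_X(k)` for `k = c₁ - N - 1`, and `c₃` is the degree of `X`. The following is
known:

* `N_X(-1)` is globally generated, so its Schur polynomials `c_i` and `c_1 c_i - c_(i+1)` are not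
  negative; the Chern classes of `N_X(-1)` are the signed coefficients of `P(T + 1)`;
* `χ(O_X(t))` is an integer for all `t`; by the theorem of Riemann-Roch it is the Koszul sum
  `Σ_S (-1)^|S| χ(ℙ^N, O(t - Σ_(i ∈ S) β_i))`, `β_i` the roots of `P` (the Chern roots);
* `χ(N_X^*(t))` is an integer for all `t`; it is `Σ_i χ(O_X(t - β_i))`.

For a complete intersection of hypersurfaces of degrees `a, b, c`, `P = (T - a) (T - b) (T - c)`.

We show: for all real `A`, `ε > 0`, all sufficiently large `N` and all `1 ≤ H ≤ N ^ A` at most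
`H³ N ^ ε` polynomials `P` with `c₁ ≤ H` satisfy these conditions. So at most `H³ N ^ ε` triples of a
canonical class and two further Chern classes (and at most so many Hilbert polynomials, and at most so
many degrees) are possible for smooth subvarieties of codimension three of `ℙ^N` with `c₁ ≤ H`. There
is no bound for the degree. About `H³ / 36` of the possible `P` are those of complete intersections, so
the exponent `3` of `H` is best possible: up to a factor `N ^ ε` there are as few polynomials `P` as
Hartshorne's conjecture predicts. Without the integrality conditions about `H⁶` polynomials are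
possible.

The starting result `CodimensionThreeFour` says that `P` is the polynomial of a complete intersection
if the degree is at most `N ^ (√e - ε)`; `AlmostAllDegrees` (and `FewExceptionalDegrees`) count in
codimension two, where `c₁² - 4 c₂` determines `c₂` if `c₁` is given.

Proof. (1) The two integrality conditions imply that `P` splits modulo every prime `3 < p ≤ N - 5`
which does not divide the degree (`Pool.Agent.N17.HC.FIN.loc`), so the discriminant `D` of `P` is a
square modulo these `p`. (2) By the Schur positivity `|D| ≤ N ^ A'`. By Burgess' bound, the method of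
Vinogradov and a large sieve (helper852, `Pool.Agent.R852`) there are at most `N ^ ε` possible
squarefree kernels `f` of `D`, and none of these is `-3`. (3) Let `c₁`, `c₂`, `f` be given. Put
`m = c₁² - 3 c₂`, `X = 2 c₁³ - 9 c₁ c₂ + 27 c₃`, `D = f s²`. Then

  `X² + 27 f s² = 4 m³`,

and `c₃` is determined by `X`. If `m ≠ 0`, the number of the points `(X, s)` of this conic with
`|X|, |s| ≤ N ^ A''` is at most `N ^ ε`: a primitive point `(X, s)` gives a square root `X / s` of
`- 27 f` modulo `n = 4 m³`; two points with the same square root differ by an element of norm one of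
`ℤ[√(-27 f)]`, and there are at most `C log (N ^ A'')` of them of this size, as `- 27 f` is not the
square of a rational number (`f ≠ -3`); and there are at most `n ^ ε` square roots, up to divisors. If
`m = 0`, then `X = s = 0`. There are at most `25 H³` pairs `c₁`, `c₂`.
-/

set_option autoImplicit false

namespace Pool.Agent.Results.MP_014caa_ag.CodimensionThreeCount

open Polynomial

/-- The Chern roots: the complex roots of `P` with multiplicities. -/
noncomputable def chernRoots (P : ℤ[X]) : Multiset ℂ := (P.map (Int.castRingHom ℂ)).roots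

/-- The Chern numbers of `N_X(-1)`: `(-1)^i` times the coefficient of `T^(3 - i)` in `P(T + 1)`,
`i ≤ 3`. -/
noncomputable def chernTwist (P : ℤ[X]) (i : ℕ) : ℤ := (-1) ^ i * (P.comp (X + 1)).coeff (3 - i)

/-- `χ(ℙ^N, O(x)) = (x + 1) ... (x + N) / N!`. -/
noncomputable def chiPN (N : ℕ) (x : ℂ) : ℂ :=
  (∏ j ∈ Finset.range N, (x + j + 1)) / N.factorial

/-- `χ(O_X(x)) = Σ_S (-1)^|S| χ(ℙ^N, O(x - β_S))`, `S` running over the submultisets of the multiset
of the Chern roots of the normal bundle, `β_S` the sum of the elements of `S`. -/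
noncomputable def chiX (N : ℕ) (P : ℤ[X]) (x : ℂ) : ℂ :=
  ((chernRoots P).powerset.map fun S => (-1) ^ Multiset.card S * chiPN N (x - S.sum)).sum

/-- `χ(N_X^*(x)) = Σ_i χ(O_X(x - β_i))`. -/
noncomputable def chiConormal (N : ℕ) (P : ℤ[X]) (x : ℂ) : ℂ :=
  ((chernRoots P).map fun b => chiX N P (x - b)).sum

/-- The conditions satisfied by the Chern polynomial of the normal bundle of a smooth subvariety of
codimension three of `ℙ^N`, `N ≥ 12`. -/
structure Possible (N : ℕ) (P : ℤ[X]) : Prop where
  monic : P.Monic
  degree : P.natDegree = 3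
  /-- the Chern classes of `N_X(-1)` are not negative -/
  chern : ∀ i ≤ 3, 0 ≤ chernTwist P i
  /-- the Schur polynomials `c_1 c_i - c_(i+1)` of `N_X(-1)` are not negative -/
  schur : ∀ i < 3, chernTwist P (i + 1) ≤ chernTwist P 1 * chernTwist P i
  /-- the Euler characteristics of `O_X(t)` are integers -/
  euler : ∀ t : ℤ, ∃ z : ℤ, chiX N P t = z
  /-- the Euler characteristics of `N_X^*(t)` are integers -/
  euler_conormal : ∀ t : ℤ, ∃ z : ℤ, chiConormal N P t = z

open Pool.Agent.N17.HC in
theorem bin_eq (N : ℕ) (x : ℂ) : bin N (N + x) = chiPN N x := by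
  unfold bin chiPN
  congr 1
  rw [← Finset.prod_range_reflect]
  refine Finset.prod_congr rfl fun j hj => ?_
  have hj' := Finset.mem_range.1 hj
  rw [show N - 1 - j = N - (j + 1) by omega, Nat.cast_sub (by omega)]
  push_cast
  ring

open Pool.Agent.N17.HC in
theorem kos_eq (N : ℕ) (P : ℤ[X]) (x : ℂ) : kos N (rootsOf P) (N + x) = chiX N P x := by
  unfold kos chiX
  change Multiset.sum (Multiset.map _ (Multiset.powerset (chernRoots P))) = _
  congr 1
  refine Multiset.map_congr rfl fun S _ => ?_
  rw [add_sub_assoc, bin_eq]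

/-- **Codimension three: at most `H³ N ^ ε` polynomials with `c₁ ≤ H` are possible**, for all
`1 ≤ H ≤ N ^ A`, `N` large. -/
theorem result (A ε : ℝ) (hε : 0 < ε) : ∃ N₀ : ℕ, ∀ N : ℕ, N₀ ≤ N →
    ∀ H : ℝ, 1 ≤ H → H ≤ (N : ℝ) ^ A →
    ∀ S : Finset ℤ[X], (∀ P ∈ S, Possible N P ∧ ((-P.coeff 2 : ℤ) : ℝ) ≤ H) →
      (S.card : ℝ) ≤ H ^ 3 * (N : ℝ) ^ ε := by
  obtain ⟨N₀, h⟩ := Pool.Agent.Run7.h445.QC.final3 A ε hε
  refine ⟨N₀, fun N hN H hH1 hHA S hS => h N hN H hH1 hHA S fun P hP => ?_⟩
  obtain ⟨⟨hm, hd, hpos, hsch, h1, h2⟩, hH⟩ := hS P hP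
  refine ⟨⟨hm, hd, hpos, hsch, ?_, ?_⟩, by push_cast at hH; exact hH⟩
  · intro t
    obtain ⟨z, hz⟩ := h1 t
    exact ⟨z, by rw [kos_eq]; exact hz⟩
  · intro t
    obtain ⟨z, hz⟩ := h2 t
    refine ⟨z, ?_⟩
    rw [← hz]
    unfold chiConormal
    change Multiset.sum (Multiset.map _ (chernRoots P)) = _
    congr 1
    refine Multiset.map_congr rfl fun b _ => ?_
    rw [add_sub_assoc, kos_eq]

end Pool.Agent.Results.MP_014caa_ag.CodimensionThreeCount
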