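import Pool.Agent.Run7.h572.FD.Cnt

/-!
# Codimension two: few exceptional pairs of a degree and a canonical class

Let `X` be a smooth subvariety of codimension two of `ℙ^N`, `N ≥ 7`, of degree `d`. It is
subcanonical (Barth-Larsen), `ω_X = 𝒪_X(k)`, and there is a vector bundle of rank two on `ℙ^N` with the
Chern classes `c₁ = k + N + 1`, `c₂ = d` (Serre). The normal bundle of `X` twisted by `-1` is globally
generated, so `0 < c₁ ≤ d + 1`. By the theorem of Riemann-Roch the Riemann-Roch conditions on `ℙ^N`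
hold for `T² - c₁ T + c₂`.

We show: for all real `A` and `ε > 0`, all sufficiently large `N` and all `1 ≤ Y ≤ N ^ A`:

(1) at most `Y / N ^ (2 √e - ε)` pairs `(k, d)`, `d ≤ Y`, satisfy these conditions and are not the
pairs `(a + b - N - 1, a b)`, `a, b ≥ 1`, of a complete intersection;

(2) hence for all but at most `Y / N ^ (2 √e - ε)` of the integers `d ≤ Y` all `k` satisfying these
conditions are those of complete intersections.

Here `2 √e = 3.29…`. There are about `(Y log Y) / 2` complete intersections with `d ≤ Y`, up to the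
order of `a` and `b`, so the exceptional pairs are rarer by more than this power of `N`. The starting
result `AlmostAllDegrees` has the bound `Y / (log N) ^ U`, for every `U`; `BurgessDegree` says that
there is no exceptional pair with `d ≤ N ^ (2 √e - ε)`, which is the case `Y < N ^ (2 √e - ε)` of (1).
For general pairs `c₁`, `c₂`, `|c₁| ≤ H`, `|c₂| ≤ H²`, see `MP_b01859_ag.FewExceptionalClasses`; in the
present range (`c₁` can be of the size of `c₂`, and `Y` pairs are few among the `Y²` pairs considered)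
it does not give a nontrivial bound.

Proof. The discriminant `D = c₁² - 4 d`, `|D| ≤ 8 Y²`, is a square modulo all odd primes `p < N`. If it
is not a square, write `D = f s²` with `f` squarefree. By the work of helper852 (Burgess' bound, the
method of Vinogradov, and a large sieve of the kind of Linnik's theorem on the least non-residue)
there are at most `N ^ ε` possible `f`, and all of them are at least `N ^ (4 √e - ε)`. For given `f`
and `s` the possible `c₁` are in an interval of length at most `4 Y / (s √|f|)` (`c₁² - D = 4 d` is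
between `0` and `4 Y`, so `c₁ + √D` is at least `√D`), and `s ≤ (Y + 1) / √|f|`; the sum over `s` is at
most `Y N ^ ε / √|f|`.
-/

set_option autoImplicit false

open Finset Polynomial Filter

namespace Pool.Agent.Results.MP_014caa_ag.FewExceptionalDegrees

open Pool.Agent.R920.CH

/-- The integers `k` and `d > 0` satisfy `0 < k + N + 1 ≤ d + 1`, and `c₁ = k + N + 1`, `c₂ = d` satisfy
the Riemann-Roch conditions on `ℙ^N`. -/
def Possible (N : ℕ) (k d : ℤ) : Prop :=
  0 < d ∧ 0 < k + N + 1 ∧ k + N + 1 ≤ d + 1 ∧ RiemannRoch N (X ^ 2 - C (k + N + 1) * X + C d)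

/-- `k` and `d` are those of a complete intersection of hypersurfaces of degrees `a` and `b`. -/
def IsCI (N : ℕ) (k d : ℤ) : Prop := ∃ a b : ℤ, 0 < a ∧ 0 < b ∧ k = a + b - N - 1 ∧ d = a * b

theorem pairs (A ε : ℝ) (hε : 0 < ε) : ∀ᶠ N : ℕ in atTop, ∀ Y : ℝ, 1 ≤ Y → Y ≤ (N : ℝ) ^ A →
    ∀ S : Finset (ℤ × ℤ), (∀ s ∈ S, Possible N s.1 s.2 ∧ (s.2 : ℝ) ≤ Y ∧ ¬ IsCI N s.1 s.2) →
      (S.card : ℝ) ≤ Y / (N : ℝ) ^ (2 * Real.exp (1 / 2) - ε) := by
  classical
  filter_upwards [Pool.Agent.Run7.h572.FD.pairs_card A ε hε] with N hN Y hY1 hYA S hS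
  have h1 := hN Y hY1 hYA (S.image fun s => (s.1 + N + 1, s.2)) (by
    intro c hc
    rw [mem_image] at hc
    obtain ⟨⟨k, d⟩, hs, rfl⟩ := hc
    obtain ⟨⟨h1, h2, h3, h4⟩, h5, h6⟩ := hS _ hs
    simp only at h1 h2 h3 h4 h5 h6 ⊢
    refine ⟨by linarith, h3, by linarith, h5, h4, ?_⟩
    intro hsq
    obtain ⟨a, b, hab1, hab2⟩ := Pool.Agent.R852.LK.split_of_square _ _ hsq
    apply h6
    have hab : 0 < a * b := by rw [← hab2]; exact h1
    have hs : 0 < a + b := by rw [← hab1]; exact h2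
    rcases mul_pos_iff.1 hab with ⟨ha, hb⟩ | ⟨ha, hb⟩
    · exact ⟨a, b, ha, hb, by linarith, hab2⟩
    · linarith)
  rwa [card_image_of_injective _ (by
    rintro ⟨a, b⟩ ⟨a', b'⟩ h
    simp only [Prod.mk.injEq] at h ⊢
    exact ⟨by linarith [h.1], h.2⟩)] at h1

open Classical in
/-- **Few exceptional degrees and canonical classes in codimension two.** -/
theorem result (A ε : ℝ) (hε : 0 < ε) : ∃ N₀ : ℕ, ∀ N ≥ N₀, ∀ Y : ℝ, 1 ≤ Y → Y ≤ (N : ℝ) ^ A →
    (∀ S : Finset (ℤ × ℤ), (∀ s ∈ S, Possible N s.1 s.2 ∧ (s.2 : ℝ) ≤ Y ∧ ¬ IsCI N s.1 s.2) →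
      (S.card : ℝ) ≤ Y / (N : ℝ) ^ (2 * Real.exp (1 / 2) - ε)) ∧
    (((Icc 1 ⌊Y⌋₊).filter fun d : ℕ => ∃ k : ℤ, Possible N k d ∧ ¬ IsCI N k d).card : ℝ) ≤
      Y / (N : ℝ) ^ (2 * Real.exp (1 / 2) - ε) := by
  obtain ⟨N₀, h⟩ := eventually_atTop.mp (pairs A ε hε)
  refine ⟨N₀, fun N hN Y hY hYN => ?_⟩
  have hp := h N hN Y hY hYN
  have hY0 : 0 ≤ Y := by linarith
  have hd : ∀ T : Finset ℕ, (∀ d ∈ T, d ∈ Icc 1 ⌊Y⌋₊ ∧ ∃ k : ℤ, Possible N k d ∧ ¬ IsCI N k d) →
      (T.card : ℝ) ≤ Y / (N : ℝ) ^ (2 * Real.exp (1 / 2) - ε) := by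
    intro T hT
    choose! κ hκ using fun d hd => (hT d hd).2
    have h1 := hp (T.image fun d => (κ d, (d : ℤ))) (by
      intro s hs
      obtain ⟨d, hdT, rfl⟩ := mem_image.1 hs
      refine ⟨(hκ d hdT).1, ?_, (hκ d hdT).2⟩
      have h2 := (mem_Icc.1 (hT d hdT).1).2
      have h3 : (d : ℝ) ≤ Y := (Nat.le_floor_iff hY0).1 h2
      simpa using h3)
    rwa [card_image_of_injective _ (by
      intro a b hab
      simp only [Prod.mk.injEq, Nat.cast_inj] at hab
      exact hab.2)] at h1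
  refine ⟨hp, ?_⟩
  apply hd
  intro d hd'
  rw [mem_filter] at hd'
  exact hd'

end Pool.Agent.Results.MP_014caa_ag.FewExceptionalDegrees
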