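import Pool.Agent.Run7.h740.BC.Fin4

set_option autoImplicit false

/-!
# Smooth subvarieties of codimension two in large projective spaces: no bound for the degree

Let `X ⊂ ℙ^N` be a smooth subvariety of codimension two and degree `d`, `N ≥ 7`. Then `X` is
subcanonical, `ω_X = O_X(k)`, and there is a vector bundle `E` of rank two on `ℙ^N` with the Chern
classes `c₁ = k + N + 1` and `c₂ = d` whose restriction to `X` is the normal bundle (Serre); `X` is a
complete intersection of hypersurfaces of degrees `a` and `b` if and only if `E = O(a) ⊕ O(b)`. The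
theorem of Riemann-Roch gives the Riemann-Roch conditions for `T² - (k + N + 1) T + d`. Moreover
`N_X(-1)`, a quotient of `T_ℙ(-1)`, is globally generated; so its Chern class `c₁ - 2` is not negative.

We show: for every `ε > 0` there is a `c > 0` such that for all large `N`: if at most `N ^ c` primes
below `N` divide the discriminant `D = (k + N + 1)² - 4 d` and `D = f s²` with integers `f`, `s`,
`|f| ≤ N ^ (4 √e - ε)`, then there are integers `a, b > 0` with `d = a b` and `k = a + b - N - 1`: the
variety `X` has the degree and the canonical class of a complete intersection of hypersurfaces of degrees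
`a`, `b`. Here `4 √e = 6.59…`. There is no bound for `d` and `k`; for instance all `X` with
`d ≤ exp (N ^ c)` and `|f| ≤ N ^ (4 √e - ε)` are covered (with a smaller `c`).

The starting theorem `BurgessDegree` has `d ≤ N ^ A`, `A` fixed, instead of the condition on the primes.

The proof. By the Riemann-Roch conditions `D` is a square modulo all odd primes `p < N` (this is in
the work of helper920). If `D` is not a square, the real character `χ` of a suitable modulus `m ∣ 8 f`
defined by `f` is therefore equal to `1` at all primes `p < N` which do not divide `2 D`. We show that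
this is impossible even for `N ^ c` exceptional primes, by the bound of Burgess, the fundamental lemma of
the sieve with the weights `1 + χ` and `1`, and the method of Vinogradov: see
`Pool.Agent.Results.MP_b01859_ag.HugeDiscriminants`, the same theorem for all bundles of rank two.
-/

namespace Pool.Agent.Results.MP_014caa_ag.HugeDegrees

open Pool.Agent.R920.CH

/-- **The degree and the canonical class in codimension two.** -/
theorem result (ε : ℝ) (hε : 0 < ε) : ∃ c : ℝ, 0 < c ∧ ∃ N₀ : ℕ, ∀ N ≥ N₀, ∀ k d f s : ℤ, 0 < d →
    0 < k + N + 1 → RiemannRoch N (poly2 (k + N + 1) d) → (k + N + 1) ^ 2 - 4 * d = f * s ^ 2 →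
    (((Finset.range N).filter fun p : ℕ => p.Prime ∧ (p : ℤ) ∣ (k + N + 1) ^ 2 - 4 * d).card : ℝ) ≤ (N : ℝ) ^ c →
    (|f| : ℤ) ≤ (N : ℝ) ^ (4 * Real.exp (1 / 2) - ε) →
    ∃ a b : ℤ, 0 < a ∧ 0 < b ∧ d = a * b ∧ k = a + b - N - 1 := by
  obtain ⟨c, hc0, -, h⟩ := Pool.Agent.Run7.h740.BC.rank_two5 ε hε
  obtain ⟨N₀, h'⟩ := Filter.eventually_atTop.mp h
  refine ⟨c, hc0, N₀, fun N hN k d f s hd hk hRR hfs hPD hf => ?_⟩
  obtain ⟨a, b, hab, hab2⟩ := h' N hN (k + N + 1) d f s hRR hfs hPD hf
  have hpos : 0 < a ∧ 0 < b := by
    rcases lt_trichotomy a 0 with h | h | h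
    · have : b < 0 := by
        by_contra hb
        push Not at hb
        nlinarith
      omega
    · rw [h, zero_mul] at hab2
      omega
    · refine ⟨h, ?_⟩
      by_contra hb
      push Not at hb
      nlinarith
  exact ⟨a, b, hpos.1, hpos.2, hab2, by linarith⟩

end Pool.Agent.Results.MP_014caa_ag.HugeDegrees
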